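import Pool.Agent.Lib_helper1.PSF.R3

/-!
# The Liouville function at polynomials with a random constant term, or random low coefficients,
against arbitrary weights
-/

set_option autoImplicit false

namespace Pool.Agent.Results.MP_892e4c_nt.PolynomialShifts

/-- The Liouville function extended to the integers: `λ(0) = 0` and, for `m ≠ 0`,
`λ(m) = (-1)^Ω(|m|)`, where `Ω` counts prime factors with multiplicity. -/
def liouville (m : ℤ) : ℤ :=
  if m = 0 then 0 else (-1) ^ (ArithmeticFunction.cardFactors m.natAbs)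

open Classical in
/-- Let `f` be an integer polynomial of degree `d`, `j ≥ 0` (`d ≥ 2` if `j = 0`) and `ε > 0`. For
all large `x`, all `H` with `H x^j ≥ C x^(d-1)` (and `H ≥ C x` if `j ≥ 1`) and all weights `g` with
`|g(n)| ≤ 1`, all but at most `ε (2 H + 1)^(j+1)` of the integer vectors `(h_0, ..., h_j)` with
`|h_i| ≤ H` satisfy `|∑_{n ≤ x} g(n) λ(f(n) + h_0 + h_1 n + ... + h_j n^j)| ≤ ε x`. -/
theorem result (f : Polynomial ℤ) (j : ℕ) (hj : j = 0 → 2 ≤ f.natDegree) (ε : ℝ) (hε : 0 < ε) :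
    ∃ C x₀ : ℕ, ∀ x H : ℕ, x₀ ≤ x → C * x ^ (f.natDegree - 1) ≤ H * x ^ j →
      (1 ≤ j → C * x ≤ H) → ∀ g : ℕ → ℂ, (∀ n, ‖g n‖ ≤ 1) →
      (((Fintype.piFinset fun _ : Fin (j + 1) => Finset.Icc (-(H : ℤ)) H).filter
        (fun h : Fin (j + 1) → ℤ => ε * x < ‖∑ n ∈ Finset.Icc 1 x, g n *
          (liouville (f.eval (n : ℤ) + ∑ i, h i * (n : ℤ) ^ (i : ℕ)) : ℂ)‖)).card : ℝ) ≤
        ε * (2 * H + 1) ^ (j + 1) := by
  obtain ⟨C, x₀, h⟩ := Pool.Agent.PS.main_gen f j hj ε hε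
  refine ⟨C, x₀, fun x H hx hC hCx g hg => ?_⟩
  refine le_trans (le_of_eq ?_) (h x H hx hCx hC g hg)
  have hl : ∀ m : ℤ, ((liouville m : ℤ) : ℂ) = (Pool.Agent.PS.lz m : ℂ) := by
    intro m
    unfold liouville Pool.Agent.PS.lz Pool.Agent.PS.lam
    by_cases hm : m = 0
    · simp [hm]
    · rw [if_neg hm, if_neg (by simpa using hm)]
      push_cast
      rfl
  simp only [hl]
  rfl

end Pool.Agent.Results.MP_892e4c_nt.PolynomialShifts
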