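import Pool.Agent.Lib_helper1.PSF.R3

/-!
# The Liouville function at almost all polynomials of height `H`

`λ(0) = 0`, `λ(m) = (-1)^Ω(|m|)`. Almost all means all but an arbitrarily small proportion.

General theorem: for EVERY integer polynomial `f` of degree `d` and almost all polynomials `h` of degree at
most `j` with coefficients of absolute value at most `H`, the sum of `g(n) λ(f(n) + h(n))` over `n ≤ x` is
`o(x)`, for arbitrary weights `|g(n)| ≤ 1`, for `x → ∞`, `x^(d-1) = o(H x^j)` and (for `j ≥ 1`) `x = o(H)`.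
For `j = 0` this needs `d ≥ 2`, and only the constant term varies.

In particular (`f = 0`, `j = d ≥ 1`): the sum of `λ(P(n))` over `n ≤ x` is `o(x)` for almost all polynomials
`P` of degree at most `d` and height at most `H`, `x = o(H)`.

Quadratics reach further: for fixed `A ≠ 0` and almost all `|a|, |b| ≤ H` the sum of `λ(A n² + a n + b)` over
`n ≤ x` is `o(x)`, for `x → ∞`, `x = o(H²)`.
-/

set_option autoImplicit false

namespace Pool.Agent.Results.MP_892e4c_nt.PolynomialsOfHeight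

/-- The Liouville function extended to the integers: `λ(0) = 0` and, for `m ≠ 0`,
`λ(m) = (-1)^Ω(|m|)`, where `Ω` counts prime factors with multiplicity. -/
def liouville (m : ℤ) : ℤ :=
  if m = 0 then 0 else (-1) ^ (ArithmeticFunction.cardFactors m.natAbs)

open Classical in
theorem result (ε : ℝ) (hε : 0 < ε) :
    -- a given polynomial plus random low coefficients (`j = 0`: a random constant), arbitrary weights
    (∀ (f : Polynomial ℤ) (j : ℕ), (j = 0 → 2 ≤ f.natDegree) →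
      ∃ C x₀ : ℕ, ∀ x H : ℕ, x₀ ≤ x → C * x ^ (f.natDegree - 1) ≤ H * x ^ j →
      (1 ≤ j → C * x ≤ H) → ∀ g : ℕ → ℂ, (∀ n, ‖g n‖ ≤ 1) →
      (((Fintype.piFinset fun _ : Fin (j + 1) => Finset.Icc (-(H : ℤ)) H).filter
        (fun h : Fin (j + 1) → ℤ => ε * x < ‖∑ n ∈ Finset.Icc 1 x, g n *
          (liouville (f.eval (n : ℤ) + ∑ i, h i * (n : ℤ) ^ (i : ℕ)) : ℂ)‖)).card : ℝ) ≤
        ε * (2 * H + 1) ^ (j + 1)) ∧
    -- in particular (`f = 0`) all polynomials of degree at most `d`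
    (∀ d : ℕ, 1 ≤ d → ∃ C x₀ : ℕ, ∀ x H : ℕ, x₀ ≤ x → C * x ≤ H →
      (((Fintype.piFinset fun _ : Fin (d + 1) => Finset.Icc (-(H : ℤ)) H).filter
        (fun a : Fin (d + 1) → ℤ => ε * x < |((∑ n ∈ Finset.Icc 1 x,
          liouville (∑ i, a i * (n : ℤ) ^ (i : ℕ)) : ℤ) : ℝ)|)).card : ℝ) ≤
        ε * (2 * H + 1) ^ (d + 1)) ∧
    -- quadratics with fixed leading coefficient, in the range `x = o(H ^ 2)`
    (∀ A : ℤ, A ≠ 0 → ∃ (c : ℝ) (x₀ : ℕ), 0 < c ∧ ∀ x H : ℕ, x₀ ≤ x → (x : ℝ) ≤ c * (H : ℝ) ^ 2 →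
      ((((Finset.Icc (-(H : ℤ)) H) ×ˢ (Finset.Icc (-(H : ℤ)) H)).filter (fun p : ℤ × ℤ =>
        ε * x < |((∑ n ∈ Finset.Icc 1 x, liouville (A * (n : ℤ) ^ 2 + p.1 * n + p.2) : ℤ) : ℝ)|)).card
          : ℝ) ≤ ε * (2 * H + 1) ^ 2) := by
  have hC : ∀ (f : Polynomial ℤ) (j : ℕ), (j = 0 → 2 ≤ f.natDegree) →
      ∃ C x₀ : ℕ, ∀ x H : ℕ, x₀ ≤ x → C * x ^ (f.natDegree - 1) ≤ H * x ^ j →
      (1 ≤ j → C * x ≤ H) → ∀ g : ℕ → ℂ, (∀ n, ‖g n‖ ≤ 1) →
      (((Fintype.piFinset fun _ : Fin (j + 1) => Finset.Icc (-(H : ℤ)) H).filter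
        (fun h : Fin (j + 1) → ℤ => ε * x < ‖∑ n ∈ Finset.Icc 1 x, g n *
          (liouville (f.eval (n : ℤ) + ∑ i, h i * (n : ℤ) ^ (i : ℕ)) : ℂ)‖)).card : ℝ) ≤
        ε * (2 * H + 1) ^ (j + 1) := by
    intro f j hj
    obtain ⟨C, x₀, h⟩ := Pool.Agent.PS.main_gen f j hj ε hε
    refine ⟨C, x₀, fun x H hx hC hCx g hg => ?_⟩
    refine le_trans (le_of_eq ?_) (h x H hx hCx hC g hg)
    have hl : ∀ m : ℤ, ((liouville m : ℤ) : ℂ) = (Pool.Agent.PS.lz m : ℂ) := by
      intro m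
      unfold liouville Pool.Agent.PS.lz Pool.Agent.PS.lam
      by_cases hm : m = 0
      · simp [hm]
      · rw [if_neg hm, if_neg (by simpa using hm)]
        push_cast
        rfl
    simp only [hl]
    rfl
  refine ⟨hC, fun d hd => ?_, fun A hA => ?_⟩
  · obtain ⟨C, x₀, h⟩ := hC 0 d (fun h0 => by omega)
    refine ⟨C, max x₀ 1, fun x H hx hCH => ?_⟩
    have hx0 : x₀ ≤ x := (le_max_left _ _).trans hx
    have hx1 : 1 ≤ x := (le_max_right _ _).trans hx
    have h1 : C * x ^ ((0 : Polynomial ℤ).natDegree - 1) ≤ H * x ^ d := by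
      have e0 : (0 : Polynomial ℤ).natDegree - 1 = 0 := by simp
      rw [e0, pow_zero, mul_one]
      calc C ≤ C * x := Nat.le_mul_of_pos_right _ hx1
        _ ≤ H := hCH
        _ ≤ H * x ^ d := Nat.le_mul_of_pos_right _ (by positivity)
    have h2 := h x H hx0 h1 (fun _ => hCH) (fun _ => 1) (fun _ => by simp)
    refine le_trans (le_of_eq ?_) h2
    congr 2
    apply Finset.filter_congr
    intro a _
    have e1 : (∑ n ∈ Finset.Icc 1 x, (1 : ℂ) *
        (liouville ((0 : Polynomial ℤ).eval (n : ℤ) + ∑ i, a i * (n : ℤ) ^ (i : ℕ)) : ℂ)) =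
        (((∑ n ∈ Finset.Icc 1 x, liouville (∑ i, a i * (n : ℤ) ^ (i : ℕ)) : ℤ) : ℝ) : ℂ) := by
      push_cast
      apply Finset.sum_congr rfl
      intro n _
      rw [Polynomial.eval_zero, zero_add, one_mul]
    rw [e1, Complex.norm_real, Real.norm_eq_abs]
  · obtain ⟨c, x₀, hc, h⟩ := Pool.Agent.PS.quadA_main A hA ε hε
    refine ⟨c, x₀, hc, fun x H hx hH => ?_⟩
    refine le_trans (le_of_eq ?_) (h x H hx hH)
    have hl : ∀ m : ℤ, ((liouville m : ℤ) : ℝ) = Pool.Agent.PS.lz m := by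
      intro m
      unfold liouville Pool.Agent.PS.lz Pool.Agent.PS.lam
      by_cases hm : m = 0
      · simp [hm]
      · rw [if_neg hm, if_neg (by simpa using hm)]
        push_cast
        rfl
    push_cast
    simp only [hl]
    congr!

end Pool.Agent.Results.MP_892e4c_nt.PolynomialsOfHeight
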