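import Pool.Agent.Lib_helper1.PSF.R3

/-!
# The Liouville function at almost all quadratic polynomials of height `H`, up to `x ≤ c H²`
-/

set_option autoImplicit false

namespace Pool.Agent.Results.MP_892e4c_nt.QuadraticsOfHeight

/-- The Liouville function extended to the integers: `λ(0) = 0` and, for `m ≠ 0`,
`λ(m) = (-1)^Ω(|m|)`, where `Ω` counts prime factors with multiplicity. -/
def liouville (m : ℤ) : ℤ :=
  if m = 0 then 0 else (-1) ^ (ArithmeticFunction.cardFactors m.natAbs)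

/-- Let `A ≠ 0` be an integer and `ε > 0`. There are `c > 0` and `x₀` such that, whenever
`x₀ ≤ x ≤ c H²`, all but at most `ε (2 H + 1)²` of the pairs `(a, b)` of integers with
`|a|, |b| ≤ H` satisfy `|∑_{n ≤ x} λ(A n² + a n + b)| ≤ ε x`. -/
theorem result (A : ℤ) (hA : A ≠ 0) (ε : ℝ) (hε : 0 < ε) :
    ∃ (c : ℝ) (x₀ : ℕ), 0 < c ∧ ∀ x H : ℕ, x₀ ≤ x → (x : ℝ) ≤ c * (H : ℝ) ^ 2 →
      ((((Finset.Icc (-(H : ℤ)) H) ×ˢ (Finset.Icc (-(H : ℤ)) H)).filter (fun p : ℤ × ℤ =>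
        ε * x < |((∑ n ∈ Finset.Icc 1 x, liouville (A * (n : ℤ) ^ 2 + p.1 * n + p.2) : ℤ) : ℝ)|)).card
          : ℝ) ≤ ε * (2 * H + 1) ^ 2 := by
  obtain ⟨c, x₀, hc, h⟩ := Pool.Agent.PS.quadA_main A hA ε hε
  refine ⟨c, x₀, hc, fun x H hx hH => ?_⟩
  refine le_trans (le_of_eq ?_) (h x H hx hH)
  have hl : ∀ m : ℤ, ((liouville m : ℤ) : ℝ) = Pool.Agent.PS.lz m := by
    intro m
    unfold liouville Pool.Agent.PS.lz Pool.Agent.PS.lam
    by_cases hm : m = 0
    · simp [hm]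
    · rw [if_neg hm, if_neg (by simpa using hm)]
      push_cast
      rfl
  push_cast
  simp only [hl]
  rfl

end Pool.Agent.Results.MP_892e4c_nt.QuadraticsOfHeight
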